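import Pool.Agent.Lib.MP_892d22_co.H9Main

namespace Pool.Agent.Results.MP_892d22_co.AlmostAllDilates

open Pool.Agent.Lib.MP_892d22_co

/-- Along every ray `s = k t` of length `N = n + 1`, the reflexive dimension is exactly
`N + (R + 1)` for all `k` between `sylD R * (∑ 1 / t j + 1 / t i)` and `sylD (R + 1) ^ (1 - ε)`,
once `R` is large. -/
theorem result {n : ℕ} (t : Fin (n + 1) → ℕ) (ht : ∀ j, 0 < t j) {ε : ℝ} (hε : 0 < ε) :
    ∃ R₀ : ℕ, ∀ R ≥ R₀, ∀ (k : ℕ) (i : Fin (n + 1)),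
      sylD R * (∑ j, 1 / (t j : ℝ) + 1 / t i) < k → (k : ℝ) ≤ (sylD (R + 1) : ℝ) ^ (1 - ε) →
      IsLeast {d | IsReflexiveFace (lectureHall fun j => k * t j) d} (n + 1 + (R + 1)) :=
  h9_main t ht hε

end Pool.Agent.Results.MP_892d22_co.AlmostAllDilates
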