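import Pool.Agent.Lib.MP_892d22_co.H37Exact

namespace Pool.Agent.Results.MP_892d22_co.ExactValue

open Pool.Agent.Lib.MP_892d22_co

/-- The sequence is `s = (t 1, ..., t N)` with `N = n + 1`, and `t 0 = t (N + 1) = 1`. If all
entries divide `H ≤ 2 ^ a` and the reciprocals of the `N + 1` heights `lcm (t j) (t (j + 1))` add
up to at least `1` whichever `2 a + 1` of them are dropped, the reflexive dimension of the lecture
hall simplex is exactly `N + 1`. -/
theorem result {n a H : ℕ} (t : ℕ → ℕ) (_h0 : t 0 = 1) (_h1 : t (n + 2) = 1) (hH0 : 0 < H)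
    (hH : H ≤ 2 ^ a) (ht : ∀ i ≤ n + 2, t i ∣ H)
    (hS : ∀ S : Finset (Fin (n + 2)), n + 1 ≤ S.card + 2 * a →
      1 ≤ ∑ j ∈ S, (1 : ℝ) / Nat.lcm (t j) (t (j + 1))) :
    IsLeast {m | IsReflexiveFace (lectureHall fun i : Fin (n + 1) => t (i + 1)) m} (n + 2) :=
  h37_exact t hH0 hH ht hS

end Pool.Agent.Results.MP_892d22_co.ExactValue
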