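import Pool.Agent.Lib.MP_892d22_co.H24Low

namespace Pool.Agent.Results.MP_892d22_co.LogLog

open Pool.Agent.Lib.MP_892d22_co

/-- Every lecture hall simplex of dimension `n + 1 ≤ 2 ^ a` with entries at most `2 ^ 2 ^ b` is
lattice equivalent to a face of a reflexive polytope of dimension `n + 1 + 28 a + 10 b + 72`. -/
theorem result {n a b : ℕ} (s : Fin (n + 1) → ℕ) (hs0 : ∀ i, 0 < s i) (hn : n + 1 ≤ 2 ^ a)
    (hs : ∀ i, s i ≤ 2 ^ 2 ^ b) :
    IsReflexiveFace (lectureHall s) (n + 1 + 28 * a + 10 * b + 72) :=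
  upper_bound s hs0 hn hs

end Pool.Agent.Results.MP_892d22_co.LogLog
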