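import Pool.Agent.Lib.MP_892d22_co.H72Upw

namespace Pool.Agent.Results.MP_892d22_co.SylvesterExact

open Pool.Agent.Lib.MP_892d22_co

/-- The sequence is `s = (k t 1, ..., k t N)` with `N = n + 1` and `t 0 = t (N + 1) = 1`. The
weights `w` are `r + 1` divisors of `W` adding up to `W - 1`, and the integers `c j` solve the
Gorenstein recursion with right side `W` times the gcd. If `c (N + 1) - k` lies in the semigroup
of the weights and `k` is large against `sylD r`, the reflexive dimension is exactly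
`N + (r + 1)`. -/
theorem result {n r k W : ℕ} (t : ℕ → ℕ) (ht : ∀ j ≤ n + 2, 0 < t j) (_h0 : t 0 = 1)
    (h1 : t (n + 2) = 1) (w m : Fin (r + 1) → ℕ) (hW : ∑ i, w i + 1 = W) (hw : ∀ i, w i ∣ W)
    (c : ℕ → ℤ) (hc0 : c 0 = 0)
    (hc : ∀ j < n + 2, c (j + 1) * t j - c j * t (j + 1) = W * Nat.gcd (t j) (t (j + 1)))
    (hup : c (n + 2) = k + ∑ i, m i * w i) (i : Fin (n + 1))
    (hlow : sylD r * (∑ j : Fin (n + 1), 1 / (t (j + 1) : ℝ) + 1 / t (i + 1)) < k) :
    IsLeast {d | IsReflexiveFace (lectureHall fun i : Fin (n + 1) => k * t (i + 1)) d}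
      (n + 1 + (r + 1)) :=
  h72_exactw t ht h1 w m hW hw c hc0 hc hup i hlow

end Pool.Agent.Results.MP_892d22_co.SylvesterExact
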